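import Pool.Agent.H.MP_58cc54_co.NT2
import Pool.Agent.H.MP_fe1fea_co.Enf

set_option autoImplicit false

namespace Pool.Agent.Results.MP_fe1fea_co.No

/-- edges of `K_n` claimed by neither player -/
def free {n : ℕ} (p : Finset (Sym2 (Fin n)) × Finset (Sym2 (Fin n))) : Finset (Sym2 (Fin n)) :=
  (Finset.univ.filter fun e : Sym2 (Fin n) => ¬ e.IsDiag) \ (p.1 ∪ p.2)

/-- Enforcer has a winning strategy in the strict `(1:b)` game -/
def EnforcerWins {V : Type} (H : SimpleGraph V) (n b : ℕ) : Prop :=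
  ∃ S : Set (Finset (Sym2 (Fin n)) × Finset (Sym2 (Fin n))), (∅, ∅) ∈ S ∧ ∀ p ∈ S,
    (free p = ∅ → H.IsContained (SimpleGraph.fromEdgeSet (p.1 : Set (Sym2 (Fin n))))) ∧
    ∀ e ∈ free p, ∃ T ⊆ (free p).erase e, T.card = min b ((free p).erase e).card ∧
      (insert e p.1, p.2 ∪ T) ∈ S

/-- delete the edge `e` and its ends of degree one -/
def minusEdge {V : Type} (H : SimpleGraph V) (e : Sym2 V) :
    SimpleGraph {v : V | ¬ (v ∈ e ∧ (H.neighborSet v).ncard = 1)} :=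
  (H.deleteEdges {e}).induce {v : V | ¬ (v ∈ e ∧ (H.neighborSet v).ncard = 1)}

theorem result : ∃ (v : ℕ) (H : SimpleGraph (Fin v)), 3 ≤ H.edgeSet.ncard ∧
    ∀ c : ℝ, 0 < c → ∀ n₀ : ℕ, ∃ n, n₀ ≤ n ∧ ∃ e ∈ H.edgeSet, ∃ f : ℕ, 0 < f ∧
      (∀ b ≤ f, EnforcerWins (minusEdge H e) n b) ∧
      ∀ b : ℕ, EnforcerWins H n b → (b : ℝ) < c * f := by
  refine ⟨3, ⊤, ?_, fun c hc n₀ => ?_⟩
  · rw [← SimpleGraph.coe_edgeFinset, Set.ncard_coe_finset,
      SimpleGraph.card_edgeFinset_top_eq_card_choose_two]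
    simp
  obtain ⟨A, hA⟩ := exists_nat_gt (8192 / c ^ 2)
  have hA1 : 1 ≤ A := by
    have : (0 : ℝ) < A := lt_trans (by positivity) hA
    exact_mod_cast this
  obtain ⟨n, hn, hd⟩ := Pool.Agent.H.MP_58cc54_co.no_divisor A (16 * A ^ 2)
    (n₀ + A * (16 * A ^ 2) ^ 2 + 16) hA1 (Nat.mul_pos (by norm_num) (by positivity))
  obtain ⟨k, hk⟩ : ∃ k, k = n / 4 := ⟨_, rfl⟩
  obtain ⟨s, hs⟩ : ∃ s, s = Nat.sqrt k := ⟨_, rfl⟩
  have s1 : s * s ≤ k := hs ▸ Nat.sqrt_le k
  have s2 : k < (s + 1) * (s + 1) := hs ▸ Nat.lt_succ_sqrt k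
  have k4 : 4 ≤ k := by omega
  have s3 : 2 ≤ s := by
    by_contra h
    have : (s + 1) * (s + 1) ≤ 2 * 2 := Nat.mul_le_mul (by omega) (by omega)
    omega
  have s4 : 2 * 4 ≤ s * k := Nat.mul_le_mul s3 k4
  set E := Finset.univ.filter (fun e : Sym2 (Fin n) => ¬ e.IsDiag) with hE
  have hE' : ∀ x y : Fin n, s(x, y) ∈ E ↔ x ≠ y := by
    intro x y
    simp [hE]
  have hfree : ∀ (p : Finset (Sym2 (Fin n)) × Finset (Sym2 (Fin n))) (e : Sym2 (Fin n)),
      (free p).erase e = E \ insert e (p.1 ∪ p.2) := by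
    intro p e
    rw [Finset.sdiff_insert]
    rfl
  refine ⟨n, by omega, s(0, 1), by simp, s * k - 1, by omega, fun b hb => ?_, fun b hw => ?_⟩
  · obtain ⟨S, h0, hS⟩ := Pool.Agent.H.MP_fe1fea_co.enf E hE' k b s (by omega)
      (by
        calc s * (b + 1) ≤ s * (s * k) := Nat.mul_le_mul_left _ (by omega)
          _ = s * s * k := by ring
          _ ≤ k * k := Nat.mul_le_mul_right _ s1)
      (by omega) ((Nat.mul_le_mul_right _ s3).trans s1)
    refine ⟨S, h0, fun p hp => ⟨fun h => ?_, fun e he => ?_⟩⟩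
    · obtain ⟨hA, u, v, w, huv, h1, h2⟩ := (hS p hp).1 h
      have huw := (hE' _ _).mp (hA h1)
      have hvw := (hE' _ _).mp (hA h2)
      have h1' : s(w, u) ∈ p.1 := Sym2.eq_swap ▸ h1
      have h2' : s(w, v) ∈ p.1 := Sym2.eq_swap ▸ h2
      refine ⟨⟨⟨fun a => ![u, v, w] a.1, ?_⟩, ?_⟩⟩
      · rintro ⟨a, ha⟩ ⟨a', ha'⟩ h
        simp only [minusEdge, SimpleGraph.comap_adj, Function.Embedding.subtype_apply,
          SimpleGraph.deleteEdges_adj, SimpleGraph.top_adj, Set.mem_singleton_iff] at h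
        rw [SimpleGraph.fromEdgeSet_adj]
        fin_cases a <;> fin_cases a' <;>
          simp [h1, h2, h1', h2', huw, hvw, huw.symm, hvw.symm] at h ⊢
      · rintro ⟨a, ha⟩ ⟨a', ha'⟩ h
        apply Subtype.ext
        fin_cases a <;> fin_cases a' <;>
          simp [huv, huw, hvw, huv.symm, huw.symm, hvw.symm] at h ⊢
    · rw [hfree]
      exact (hS p hp).2 e he
  · by_contra hb
    obtain ⟨S, hS0, hS⟩ := hw
    have hcard : 2 * E.card + n = n * n := by
      have e1 : E = (⊤ : SimpleGraph (Fin n)).edgeFinset := by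
        ext e
        simp [hE]
      rw [e1, SimpleGraph.card_edgeFinset_top_eq_card_choose_two, Fintype.card_fin,
        Nat.choose_two_right, Nat.mul_div_cancel' (Nat.even_mul_pred_self n).two_dvd]
      cases n with
      | zero => rfl
      | succ k =>
        rw [Nat.add_sub_cancel]
        ring
    have hb' : n ^ 3 ≤ A * (b + 1) ^ 2 := by
      obtain ⟨f, hf⟩ : ∃ f, f = s * k - 1 := ⟨_, rfl⟩
      rw [← hf] at hb
      have a1 : n ^ 3 ≤ (8 * k) ^ 3 := Nat.pow_le_pow_left (by omega) 3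
      have a2 : k ≤ 4 * (s * s) := by nlinarith
      have a3 : (s * k) ^ 2 ≤ (2 * f) ^ 2 := Nat.pow_le_pow_left (by omega) 2
      have a4 : n ^ 3 ≤ 8192 * f ^ 2 := by
        have b1 : k * k ^ 2 ≤ 4 * (s * s) * k ^ 2 := Nat.mul_le_mul_right _ a2
        nlinarith
      have a5 : (n : ℝ) ^ 3 ≤ 8192 * (f : ℝ) ^ 2 := by exact_mod_cast a4
      have a6 : (c * f) ^ 2 ≤ ((b : ℝ) + 1) ^ 2 :=
        pow_le_pow_left₀ (by positivity) (by linarith [not_lt.mp hb]) 2
      rw [div_lt_iff₀ (by positivity)] at hA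
      have h2 : (n : ℝ) ^ 3 ≤ A * ((b : ℝ) + 1) ^ 2 := by
        have h4 := mul_le_mul_of_nonneg_left a6 (Nat.cast_nonneg (α := ℝ) A)
        have h5 := mul_le_mul_of_nonneg_right hA.le (sq_nonneg (f : ℝ))
        nlinarith
      exact_mod_cast h2
    obtain ⟨j0, h1, h2⟩ := Pool.Agent.H.MP_58cc54_co.arith n E.card b A hcard hb' (by omega) hd
    refine Pool.Agent.H.MP_58cc54_co.game E (fun x y hxy => (hE' x y).mp hxy) b j0 S
      (fun p hp => ⟨fun h0 ht => ?_, fun e he => ?_⟩) h1 h2 _ 0 _ ∅ le_rfl hS0 (by simp) (by simp)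
      ?_ ?_ (by simp)
    · obtain ⟨f⟩ := (hS p hp).1 h0
      have a : ∀ u v : Fin 3, u ≠ v → s(f u, f v) ∈ p.1 ∧ f u ≠ f v := by
        intro u v huv
        have := f.toHom.map_adj (show (⊤ : SimpleGraph (Fin 3)).Adj u v from huv)
        rw [SimpleGraph.fromEdgeSet_adj] at this
        exact this
      exact ht (f 0) (f 1) (f 2) (a 0 1 (by decide)).2 (a 1 2 (by decide)).2 (a 0 2 (by decide)).2
        (a 0 1 (by decide)).1 (a 1 2 (by decide)).1 (a 0 2 (by decide)).1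
    · rw [← hfree]
      exact (hS p hp).2 e he
    · intro u v w _ _ _ h0
      simp at h0
    · intro u v w _ h0
      simp at h0

end Pool.Agent.Results.MP_fe1fea_co.No
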